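import Pool.Agent.helper3.T6R.Spec

/-! Row t6r:RDI (MP_16912e_nt): everything is determined by the tuple (copy of the row ADIN of helper19) -/

set_option autoImplicit false

namespace Pool.Agent.T6R

open Finset NumberField Pool.Agent.helper3.FT Pool.Agent.helper47.RA Pool.Agent.T5 Pool.Agent.T6
open scoped nonZeroDivisors

theorem RDI_sq {D : ℤ} (hD : D ≠ 0) (d d' : ℕ) (h : D * (d : ℤ) ^ 2 = D * (d' : ℤ) ^ 2) : d = d' := by
  have h1 : (d : ℤ) ^ 2 = (d' : ℤ) ^ 2 := mul_left_cancel₀ hD h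
  have h2 : d ^ 2 = d' ^ 2 := by exact_mod_cast h1
  exact Nat.pow_left_injective (n := 2) two_ne_zero h2

theorem RDI_ext {K : Type} [Field K] [NumberField K] (Q : QF K) (x y : 𝓞 K)
    (h1 : x + Q.cj x = y + Q.cj y) (h2 : Q.Y x = Q.Y y) : x = y := by
  have e1 := Q.sub_cj x
  have e2 := Q.sub_cj y
  rw [h2, ← e2] at e1
  have h3 : (2 : 𝓞 K) * x = 2 * y := by linear_combination h1 + e1
  exact mul_left_cancel₀ two_ne_zero h3

theorem RDI : RDI_stmt := by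
  intro K _ _ Q a a' α γ α' γ' d d' t h h'
  have hdd : d = d' := by
    have h1 := h.D
    have h2 := h'.D
    rw [h1] at h2
    exact RDI_sq Q.D_ne_zero d d' h2
  subst hdd
  obtain ⟨⟨F, hFa, hFβ, hFγ, hFZ, hFΛ, hFu, hFv⟩, htt, hd1, hn, hk, -⟩ := h
  obtain ⟨⟨F', hFa', hFβ', hFγ', hFZ', hFΛ', hFu', hFv'⟩, -, -, hn', hk', -⟩ := h'
  subst hFa hFβ hFγ hFa' hFβ' hFγ'
  have hn1 := htt.n1
  have hk1 := htt.k1
  have hYγ : Q.Y F.γ ≠ 0 := by rw [hk]; positivity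
  have hYβ : Q.Y F.β ≠ 0 := by rw [hn]; positivity
  have hYγ' : Q.Y F.γ = Q.Y F'.γ := by rw [hk, hk']
  have hYβ' : Q.Y F.β = Q.Y F'.β := by rw [hn, hn']
  have hZZ : F.Z = F'.Z := by rw [hFZ, hFZ']
  have hΛΛ : F.Λ = F'.Λ := by rw [hFΛ, hFΛ']
  have huu : Q.Y F.u = Q.Y F'.u := by rw [hFu, hFu']
  have hvv : Q.Y F.v = Q.Y F'.v := by rw [hFv, hFv']
  have hβ : F.β = F'.β := by
    refine RDI_ext Q _ _ ?_ hYβ'
    have t1 := F.trβ
    have t2 := F'.trβ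
    rw [← hYγ', ← hZZ, ← hΛΛ, ← huu, ← hvv, ← t1] at t2
    have hc : (Q.Y F.γ : 𝓞 K) ≠ 0 := by exact_mod_cast hYγ
    exact (mul_left_cancel₀ hc t2).symm
  have hγ : F.γ = F'.γ := by
    refine RDI_ext Q _ _ ?_ hYγ'
    have t1 := F.trγ
    have t2 := F'.trγ
    rw [← hYβ', ← hZZ, ← hΛΛ, ← huu, ← hvv, ← t1] at t2
    have hc : (Q.Y F.β : 𝓞 K) ≠ 0 := by exact_mod_cast hYβ
    exact (mul_left_cancel₀ hc t2).symm
  have hα : F.α = F'.α := by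
    have e1 := F.e3
    have e2 := F'.e3
    rw [← hβ, ← hγ, ← hΛΛ, e1] at e2
    have hc : (F.Λ : 𝓞 K) ≠ 0 := by exact_mod_cast F.hΛ
    exact mul_left_cancel₀ (pow_ne_zero 2 hc) e2
  refine ⟨rfl, ?_, hβ⟩
  refine pow_inj F.a F'.a 5 (by norm_num) ?_
  rw [← F.iα, ← F'.iα, hα]

end Pool.Agent.T6R
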